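import Pool.Agent.H236.TC.ST

/-!
# Congruences modulo 4 and 8 for a limiting two-color partition function

`c(n)` is the coefficient of `q^n` in
`∑_{m ≥ 0} q^(2m+1) (-q^(2m+2);q²)_∞ / (q^(2m+1);q²)_∞²`.
The theorem says that the coefficients of `q^n` of the truncations of this series, in which the sum
over `m` and both infinite products are cut off at any `N > n`, have a common value `c(n)`, and that
for all `k ≥ 0` and `n ≥ 0`
`c(2^(2k+3) n + (11·4^k+1)/3) ≡ 0 (mod 4)`, `c(2^(2k+3) n + (17·4^k+1)/3) ≡ 0 (mod 8)` and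
`c(2^(2k+4) n + (38·4^k+1)/3) ≡ 0 (mod 4)`.

Proof.  The finite Jacobi triple product and a telescoping sum give the identity
`φ(-q) ∑ c(n) q^n = ∑_{k ∈ ℤ} (-1)^k q^(k²) ∑_{y ≥ 1, 3 ∤ y} (-1)^⌊y/3⌋ q^(1 + 2(y²-1)/3 + 2|k|y)`,
`φ(-q) = ∑ (-1)^k q^(k²)`.  Modulo 8 (modulo 4) this expresses `c(n)` by the representations of
`3n-1` by `2y²`, `3k²+6ky+2y²`, `3k²+2y²`, `3l²+3k²+6ky+2y²` and `6k²+2y²`.  For the second and the
third family there are none.  For the first family one needs that the numbers of positive solutions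
of `3k²+6ky+2y² = M` and of `3k²+2y² = M` have the same parity for `M ≡ 11 (mod 24)`; this is proved
by counting, with piecewise linear involutions, the integer solutions of `3l²+2uv = M` and of
`l²+2uv = M` which cross the sides of a polygon of the corresponding reflection group.
-/

set_option autoImplicit false

namespace Pool.Agent.Results.MP_e258d6_nt.TwoColorCongruences

open Finset PowerSeries Pool.Agent.H236.TC

theorem result :
    ∃ c : ℕ → ℤ,
      (∀ N n : ℕ, n < N →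
        c n = coeff n (∑ m ∈ range N, (X : ℤ⟦X⟧) ^ (2 * m + 1) *
          (∏ j ∈ range N, (1 + (X : ℤ⟦X⟧) ^ (2 * m + 2 + 2 * j))) *
          (invOfUnit (∏ j ∈ range N, (1 - (X : ℤ⟦X⟧) ^ (2 * m + 1 + 2 * j))) 1) ^ 2)) ∧
      ∀ k n : ℕ,
        (4 : ℤ) ∣ c (2 ^ (2 * k + 3) * n + (11 * 4 ^ k + 1) / 3) ∧
        (8 : ℤ) ∣ c (2 ^ (2 * k + 3) * n + (17 * 4 ^ k + 1) / 3) ∧
        (4 : ℤ) ∣ c (2 ^ (2 * k + 4) * n + (38 * 4 ^ k + 1) / 3) := by
  refine ⟨c, fun N n h => (FN_stable h).symm, fun k n => ?_⟩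
  have h8 : (2 : ℕ) ^ (2 * k + 3) = 8 * 4 ^ k := by
    rw [pow_add, pow_mul]; norm_num; ring
  have h16 : (2 : ℕ) ^ (2 * k + 4) = 16 * 4 ^ k := by
    rw [pow_add, pow_mul]; norm_num; ring
  rw [h8, h16]
  refine ⟨?_, ?_, ?_⟩
  · exact family1 _ k _ (by push_cast; omega) (by positivity) (idx k n 11 8 (by norm_num) rfl)
  · exact family2 _ k _ (by push_cast; omega) (idx k n 17 8 (by norm_num) rfl)
  · exact family3 _ k _ (by push_cast; omega) (idx k n 38 16 (by norm_num) rfl)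

end Pool.Agent.Results.MP_e258d6_nt.TwoColorCongruences
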